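import Pool.Agent.Q283.LQ.Stm

/-!
# Job LQ-LOC (helper96, for project LQ of helper283): the number of the classes modulo `Nn y`
-/

set_option autoImplicit false

namespace Pool.Agent.Q96.LQ

open NumberField IsDedekindDomain Pool.Agent.Q283.LQ

/-! ## Counting -/

theorem quot_card {α : Type} (s : Setoid α) (n : ℕ)
    (h : ∀ B : Finset α, (∀ b ∈ B, ∀ b' ∈ B, b ≠ b' → ¬ s b b') → B.card ≤ n) :
    Finite (Quotient s) ∧ Nat.card (Quotient s) ≤ n := by
  classical
  have key : ∀ T : Finset (Quotient s), T.card ≤ n := by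
    intro T
    have h1 := h (T.image Quotient.out) (by
      intro b hb b' hb' hne hr
      rw [Finset.mem_image] at hb hb'
      obtain ⟨q, _, rfl⟩ := hb
      obtain ⟨q', _, rfl⟩ := hb'
      apply hne
      have : q = q' := by
        rw [← Quotient.out_eq q, ← Quotient.out_eq q']
        exact Quotient.sound hr
      rw [this])
    rwa [Finset.card_image_of_injective _ Quotient.out_injective] at h1
  have hfin : Finite (Quotient s) := by
    by_contra hinf
    rw [not_finite_iff_infinite] at hinf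
    obtain ⟨T, hT⟩ := Infinite.exists_subset_card_eq (Quotient s) (n + 1)
    have := key T
    omega
  refine ⟨hfin, ?_⟩
  have := Fintype.ofFinite (Quotient s)
  rw [Nat.card_eq_fintype_card]
  exact key Finset.univ

theorem prod_bound {α ι : Type} [Fintype ι] (s : ι → Setoid α) (n : ι → ℕ)
    (h : ∀ i, ∀ B : Finset α, (∀ b ∈ B, ∀ b' ∈ B, b ≠ b' → ¬ (s i) b b') → B.card ≤ n i)
    (B : Finset α) (hB : ∀ b ∈ B, ∀ b' ∈ B, b ≠ b' → ¬ ∀ i, (s i) b b') : B.card ≤ ∏ i, n i := by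
  classical
  have hf : ∀ i, Finite (Quotient (s i)) := fun i => (quot_card (s i) (n i) (h i)).1
  let _ : ∀ i, Fintype (Quotient (s i)) := fun i => Fintype.ofFinite _
  have hc : ∀ i, Fintype.card (Quotient (s i)) ≤ n i := fun i => by
    rw [← Nat.card_eq_fintype_card]
    exact (quot_card (s i) (n i) (h i)).2
  let g : α → (∀ i, Quotient (s i)) := fun a i => Quotient.mk (s i) a
  have hinj : Set.InjOn g B := by
    intro b hb b' hb' hg
    by_contra hne
    apply hB b hb b' hb' hne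
    intro i
    exact Quotient.exact (congrFun hg i)
  calc B.card = (B.image g).card := (Finset.card_image_of_injOn hinj).symm
    _ ≤ Fintype.card (∀ i, Quotient (s i)) := Finset.card_le_univ _
    _ = ∏ i, Fintype.card (Quotient (s i)) := Fintype.card_pi
    _ ≤ ∏ i, n i := Finset.prod_le_prod' fun i _ => hc i

/-- the index of the squares is the number of the elements with square `1` -/
theorem card_quot_sq (G : Type) [CommGroup G] [Finite G] :
    Nat.card (G ⧸ (powMonoidHom 2 : G →* G).range) = Nat.card (powMonoidHom 2 : G →* G).ker := by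
  have h1 := (powMonoidHom 2 : G →* G).ker.card_mul_index
  rw [Subgroup.index_ker] at h1
  have h2 := (powMonoidHom 2 : G →* G).range.card_mul_index
  have h3 : 0 < Nat.card (powMonoidHom 2 : G →* G).range := Nat.card_pos
  have h4 : (powMonoidHom 2 : G →* G).range.index
      = Nat.card (G ⧸ (powMonoidHom 2 : G →* G).range) := rfl
  rw [← h4]
  apply Nat.eq_of_mul_eq_mul_left h3
  rw [h2, ← h1, mul_comm]

/-! ## One place -/

section Loc

variable {F : Type} [Field F] [NumberField F]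

theorem cardW (v : HeightOneSpectrum (𝓞 F)) (e : ℕ) :
    Nat.card (Submodule.map (v.asIdeal ^ (2 * e + 1)).mkQ (v.asIdeal ^ (e + 1))) =
      Ideal.absNorm v.asIdeal ^ e := by
  have hle : v.asIdeal ^ (2 * e + 1) ≤ v.asIdeal ^ (e + 1) := Ideal.pow_le_pow_right (by omega)
  have h1 := Submodule.card_quotient_mul_card_quotient (v.asIdeal ^ (e + 1))
    (v.asIdeal ^ (2 * e + 1)) hle
  have h2 : ∀ k : ℕ, Nat.card (𝓞 F ⧸ v.asIdeal ^ k) = Ideal.absNorm v.asIdeal ^ k := by
    intro k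
    rw [← map_pow, Ideal.absNorm_apply, Submodule.cardQuot_apply]
  rw [h2, h2] at h1
  have h3 : 0 < Ideal.absNorm v.asIdeal := by
    rw [Nat.pos_iff_ne_zero, Ne, Ideal.absNorm_eq_zero_iff]
    exact v.ne_bot
  apply Nat.eq_of_mul_eq_mul_right (pow_pos h3 (e + 1))
  rw [h1, ← pow_add]
  congr 1
  omega

theorem fin_quot (v : HeightOneSpectrum (𝓞 F)) (k : ℕ) : Finite (𝓞 F ⧸ v.asIdeal ^ k) := by
  rw [← Ideal.absNorm_ne_zero_iff, map_pow]
  apply pow_ne_zero
  rw [Ne, Ideal.absNorm_eq_zero_iff]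
  exact v.ne_bot

theorem ker_card (v : HeightOneSpectrum (𝓞 F)) (e : ℕ) :
    Nat.card (powMonoidHom 2 : (𝓞 F ⧸ v.asIdeal ^ (2 * e + 1))ˣ →* _).ker ≤
      2 * Ideal.absNorm v.asIdeal ^ e := by
  classical
  have hf := fin_quot v (2 * e + 1)
  set W := Submodule.map (v.asIdeal ^ (2 * e + 1)).mkQ (v.asIdeal ^ (e + 1)) with hW
  have key : ∀ z : (𝓞 F ⧸ v.asIdeal ^ (2 * e + 1))ˣ,
      z ∈ (powMonoidHom 2 : (𝓞 F ⧸ v.asIdeal ^ (2 * e + 1))ˣ →* _).ker →
      (z : 𝓞 F ⧸ v.asIdeal ^ (2 * e + 1)) - 1 ∈ W ∨ (z : 𝓞 F ⧸ v.asIdeal ^ (2 * e + 1)) + 1 ∈ W := by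
    intro z hz
    rw [MonoidHom.mem_ker, powMonoidHom_apply] at hz
    have hz' : (z : 𝓞 F ⧸ v.asIdeal ^ (2 * e + 1)) ^ 2 = 1 := by
      rw [← Units.val_pow_eq_pow_val, hz, Units.val_one]
    obtain ⟨β, hβ⟩ := Ideal.Quotient.mk_surjective (z : 𝓞 F ⧸ v.asIdeal ^ (2 * e + 1))
    have h1 : (β - 1) * (β + 1) ∈ v.asIdeal ^ (2 * e + 1) := by
      rw [← Ideal.Quotient.eq_zero_iff_mem, map_mul, map_sub, map_add, map_one, hβ]
      linear_combination hz'
    rw [← v.intValuation_le_pow_iff_mem, map_mul] at h1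
    have h2 : v.intValuation (β - 1) ≤ WithZero.exp (-((e + 1 : ℕ) : ℤ)) ∨
        v.intValuation (β + 1) ≤ WithZero.exp (-((e + 1 : ℕ) : ℤ)) := by
      by_contra hcon
      push Not at hcon
      obtain ⟨ha, hb⟩ := hcon
      have h3 : ∀ x : WithZero (Multiplicative ℤ), WithZero.exp (-((e + 1 : ℕ) : ℤ)) < x →
          WithZero.exp (-(e : ℤ)) ≤ x := by
        intro x hx
        have hx0 : x ≠ 0 := by
          rintro rfl
          exact absurd hx (by simp)
        obtain ⟨k, rfl⟩ : ∃ k : ℤ, x = WithZero.exp k := ⟨WithZero.log x, (WithZero.exp_log hx0).symm⟩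
        rw [WithZero.exp_lt_exp] at hx
        rw [WithZero.exp_le_exp]
        push_cast at hx
        omega
      have h4 := mul_le_mul' (h3 _ ha) (h3 _ hb)
      rw [← WithZero.exp_add] at h4
      have h5 := h4.trans h1
      rw [WithZero.exp_le_exp] at h5
      push_cast at h5
      omega
    rw [v.intValuation_le_pow_iff_mem, v.intValuation_le_pow_iff_mem] at h2
    rcases h2 with h2 | h2
    · left
      rw [hW, Submodule.mem_map]
      refine ⟨β - 1, h2, ?_⟩
      rw [← hβ]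
      simp only [Submodule.mkQ_apply, Ideal.Quotient.mk_eq_mk, map_sub, map_one]
    · right
      rw [hW, Submodule.mem_map]
      refine ⟨β + 1, h2, ?_⟩
      rw [← hβ]
      simp only [Submodule.mkQ_apply, Ideal.Quotient.mk_eq_mk, map_add, map_one]
  have hWf : Finite W := Subtype.finite
  let g : (powMonoidHom 2 : (𝓞 F ⧸ v.asIdeal ^ (2 * e + 1))ˣ →* _).ker → Bool × W := fun z =>
    if h : ((z : (𝓞 F ⧸ v.asIdeal ^ (2 * e + 1))ˣ) : 𝓞 F ⧸ v.asIdeal ^ (2 * e + 1)) - 1 ∈ W then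
      (true, ⟨_, h⟩) else (false, ⟨_, (key z.1 z.2).resolve_left h⟩)
  have hg : Function.Injective g := by
    intro z z' h
    simp only [g] at h
    split_ifs at h with h1 h2 h2
    · simp only [Prod.mk.injEq, Subtype.mk.injEq, true_and] at h
      exact Subtype.ext (Units.ext (sub_left_injective h))
    · simp at h
    · simp at h
    · simp only [Prod.mk.injEq, Subtype.mk.injEq, true_and] at h
      exact Subtype.ext (Units.ext (add_left_injective _ h))
  calc _ ≤ Nat.card (Bool × W) := Nat.card_le_card_of_injective g hg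
    _ = 2 * Ideal.absNorm v.asIdeal ^ e := by
      rw [Nat.card_prod, hW, cardW]
      simp

theorem exists_unit (v : HeightOneSpectrum (𝓞 F)) (e : ℕ) (b : F) (hb : v.valuation F b = 1) :
    ∃ (β : 𝓞 F) (u : (𝓞 F ⧸ v.asIdeal ^ (2 * e + 1))ˣ),
      v.valuation F (algebraMap (𝓞 F) F β - b) ≤ WithZero.exp (-((2 * e + 1 : ℕ) : ℤ)) ∧
      v.valuation F (algebraMap (𝓞 F) F β) = 1 ∧
      (u : 𝓞 F ⧸ v.asIdeal ^ (2 * e + 1)) = Ideal.Quotient.mk _ β := by
  have hu : (WithZero.exp (-((2 * e + 1 : ℕ) : ℤ)) : WithZero (Multiplicative ℤ)) ≠ 0 := by simp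
  obtain ⟨β, hβ⟩ := v.exists_valuation_sub_lt_of_integer (K := F) (x := b) hb.le (Units.mk0 _ hu)
  rw [Units.val_mk0] at hβ
  have h1 : v.valuation F (algebraMap (𝓞 F) F β - b) < v.valuation F b := by
    rw [hb]
    refine lt_of_lt_of_le hβ ?_
    rw [← WithZero.exp_zero, WithZero.exp_le_exp]
    omega
  have h2 : v.valuation F (algebraMap (𝓞 F) F β) = 1 := by
    have := (v.valuation F).map_add_eq_of_lt_left h1
    rwa [add_sub_cancel, hb] at this
  have h3 : β ∉ v.asIdeal := by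
    rw [v.valuation_of_algebraMap, v.intValuation_eq_one_iff_mem_primeCompl] at h2
    exact h2
  have : v.asIdeal.IsMaximal := v.isMaximal
  have h4 : IsUnit (Ideal.Quotient.mk (v.asIdeal ^ (2 * e + 1)) β) :=
    Ideal.Quotient.isUnit_mk_pow_of_notMem v.asIdeal h3
  exact ⟨β, h4.unit, hβ.le, h2, h4.unit_spec⟩

/-- the main local computation: `n` units pairwise not equal modulo squares in the completion -/
theorem sq_of_quot (hBAS : S_BAS) (v : HeightOneSpectrum (𝓞 F)) (e : ℕ)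
    (he : v.valuation F 2 = WithZero.exp (-(e : ℤ))) (b b' : F) (hb : v.valuation F b = 1)
    (β β' : 𝓞 F) (u u' : (𝓞 F ⧸ v.asIdeal ^ (2 * e + 1))ˣ)
    (h : v.valuation F (algebraMap (𝓞 F) F β - b) ≤ WithZero.exp (-((2 * e + 1 : ℕ) : ℤ)))
    (h' : v.valuation F (algebraMap (𝓞 F) F β' - b') ≤ WithZero.exp (-((2 * e + 1 : ℕ) : ℤ)))
    (h1 : v.valuation F (algebraMap (𝓞 F) F β) = 1) (h1' : v.valuation F (algebraMap (𝓞 F) F β') = 1)
    (hu : (u : 𝓞 F ⧸ v.asIdeal ^ (2 * e + 1)) = Ideal.Quotient.mk _ β)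
    (hu' : (u' : 𝓞 F ⧸ v.asIdeal ^ (2 * e + 1)) = Ideal.Quotient.mk _ β')
    (w : (𝓞 F ⧸ v.asIdeal ^ (2 * e + 1))ˣ) (hw : u⁻¹ * u' = w ^ 2) : Lsq v (b * b') := by
  obtain ⟨η, hη⟩ := Ideal.Quotient.mk_surjective ((u * w : (𝓞 F ⧸ v.asIdeal ^ (2 * e + 1))ˣ) :
    𝓞 F ⧸ v.asIdeal ^ (2 * e + 1))
  have h2 : u * u' = (u * w) ^ 2 := by
    rw [mul_pow, ← hw, sq, mul_assoc, mul_inv_cancel_left]
  have h3 : β * β' - η ^ 2 ∈ v.asIdeal ^ (2 * e + 1) := by
    rw [← Ideal.Quotient.eq_zero_iff_mem, map_sub, map_mul, map_pow, hη, ← hu, ← hu',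
      ← Units.val_mul, ← Units.val_pow_eq_pow_val, h2, sub_self]
  rw [← v.intValuation_le_pow_iff_mem, ← v.valuation_of_algebraMap (K := F)] at h3
  have hlt1 : (WithZero.exp (-((2 * e + 1 : ℕ) : ℤ)) : WithZero (Multiplicative ℤ)) < 1 := by
    rw [← WithZero.exp_zero, WithZero.exp_lt_exp]
    omega
  have hη1 : v.valuation F (algebraMap (𝓞 F) F η) = 1 := by
    have h4 : v.valuation F (algebraMap (𝓞 F) F (β * β') - algebraMap (𝓞 F) F (η ^ 2)) <
        v.valuation F (algebraMap (𝓞 F) F (β * β')) := by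
      rw [← map_sub, map_mul, map_mul, h1, h1', one_mul]
      exact lt_of_le_of_lt h3 hlt1
    have h5 := (v.valuation F).map_sub_eq_of_lt_right h4
    rw [sub_sub_cancel_left, Valuation.map_neg, map_mul, map_mul, h1, h1', one_mul, map_pow, map_pow,
      ] at h5
    have h6 : v.valuation F (algebraMap (𝓞 F) F η) ^ 2 = 1 ^ 2 := by rw [h5, one_pow]
    exact (pow_left_inj₀ (by simp) (by simp) two_ne_zero).mp h6
  have hη0 : algebraMap (𝓞 F) F η ≠ 0 := by
    intro h0
    rw [h0, map_zero] at hη1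
    exact zero_ne_one hη1
  apply (hBAS F v).2.2.2.2.1 (b * b') (algebraMap (𝓞 F) F η)⁻¹
  have h7 : v.valuation F (b * b' * (algebraMap (𝓞 F) F η)⁻¹ ^ 2 - 1) =
      v.valuation F (b * b' - algebraMap (𝓞 F) F (η ^ 2)) := by
    have : b * b' * (algebraMap (𝓞 F) F η)⁻¹ ^ 2 - 1 =
        (b * b' - algebraMap (𝓞 F) F (η ^ 2)) * ((algebraMap (𝓞 F) F η)⁻¹) ^ 2 := by
      rw [map_pow]
      field_simp
    rw [this, map_mul, map_pow (v.valuation F), map_inv₀, hη1, inv_one, one_pow, mul_one]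
  rw [h7]
  have h8 : v.valuation F (b * b' - algebraMap (𝓞 F) F (η ^ 2)) ≤ WithZero.exp (-((2 * e + 1 : ℕ) : ℤ)) := by
    have h9 : b * b' - algebraMap (𝓞 F) F (η ^ 2) =
        (algebraMap (𝓞 F) F (β * β' - η ^ 2) - (algebraMap (𝓞 F) F β - b) * algebraMap (𝓞 F) F β') -
          b * (algebraMap (𝓞 F) F β' - b') := by
      rw [map_sub, map_mul]
      ring
    rw [h9]
    refine ((v.valuation F).map_sub_le ?_ ?_)
    · refine ((v.valuation F).map_sub_le h3 ?_)
      rw [map_mul, h1', mul_one]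
      exact h
    · rw [map_mul, hb, one_mul]
      exact h'
  refine lt_of_le_of_lt h8 ?_
  have h10 : v.valuation F 4 = WithZero.exp (-(2 * e : ℕ) : ℤ) := by
    have : (4 : F) = 2 * 2 := by norm_num
    rw [this, map_mul, he, ← WithZero.exp_add]
    congr 1
    push_cast
    ring
  rw [h10, WithZero.exp_lt_exp]
  omega

theorem loc_one (hBAS : S_BAS) (v : HeightOneSpectrum (𝓞 F)) (e : ℕ)
    (he : v.valuation F 2 = WithZero.exp (-(e : ℤ))) (B : Finset F) (h0 : ∀ b ∈ B, b ≠ 0)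
    (hB : ∀ b ∈ B, ∀ b' ∈ B, b ≠ b' → ¬ Lsq v (b * b')) :
    B.card ≤ 4 * Ideal.absNorm v.asIdeal ^ e := by
  classical
  have hf := fin_quot v (2 * e + 1)
  obtain ⟨ϖ, hϖ⟩ := v.valuation_exists_uniformizer F
  have hϖ0 : ϖ ≠ 0 := by
    rintro rfl
    rw [map_zero] at hϖ
    exact WithZero.exp_ne_zero hϖ.symm
  have key : ∀ b : F, b ≠ 0 → ∃ (p : Fin 2) (j : ℤ) (β : 𝓞 F) (u : (𝓞 F ⧸ v.asIdeal ^ (2 * e + 1))ˣ),
      v.valuation F (b * ϖ ^ (p : ℕ) * (ϖ ^ j) ^ 2) = 1 ∧
      v.valuation F (algebraMap (𝓞 F) F β - (b * ϖ ^ (p : ℕ) * (ϖ ^ j) ^ 2)) ≤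
        WithZero.exp (-((2 * e + 1 : ℕ) : ℤ)) ∧
      v.valuation F (algebraMap (𝓞 F) F β) = 1 ∧
      (u : 𝓞 F ⧸ v.asIdeal ^ (2 * e + 1)) = Ideal.Quotient.mk _ β := by
    intro b hb
    have hv : v.valuation F b ≠ 0 := (Valuation.ne_zero_iff _).mpr hb
    obtain ⟨k, hk⟩ : ∃ k : ℤ, v.valuation F b = WithZero.exp k :=
      ⟨WithZero.log (v.valuation F b), (WithZero.exp_log hv).symm⟩
    obtain ⟨j, p, hp⟩ : ∃ (j : ℤ) (p : Fin 2), k = 2 * j + (p : ℕ) := by
      rcases Int.even_or_odd' k with ⟨j, hj | hj⟩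
      · exact ⟨j, 0, by simpa using hj⟩
      · exact ⟨j, 1, by simpa using hj⟩
    have h1 : v.valuation F (b * ϖ ^ (p : ℕ) * (ϖ ^ j) ^ 2) = 1 := by
      rw [map_mul, map_mul, map_pow, map_pow, map_zpow₀, hk, hϖ, ← WithZero.exp_zsmul,
        ← WithZero.exp_nsmul, ← WithZero.exp_nsmul, ← WithZero.exp_add, ← WithZero.exp_add,
        ← WithZero.exp_zero]
      congr 1
      simp only [smul_eq_mul, nsmul_eq_mul]
      rw [hp]
      push_cast
      ring
    obtain ⟨β, u, h2, h3, h4⟩ := exists_unit v e _ h1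
    exact ⟨p, j, β, u, h1, h2, h3, h4⟩
  choose! P J Be U h1 h2 h3 h4 using key
  let g : F → Fin 2 × ((𝓞 F ⧸ v.asIdeal ^ (2 * e + 1))ˣ ⧸
      (powMonoidHom 2 : (𝓞 F ⧸ v.asIdeal ^ (2 * e + 1))ˣ →* _).range) := fun b => (P b, (U b : _ ⧸ _))
  have hinj : Set.InjOn g B := by
    intro b hb b' hb' hg
    by_contra hne
    apply hB b hb b' hb' hne
    simp only [g, Prod.mk.injEq] at hg
    obtain ⟨hp, hu⟩ := hg
    rw [QuotientGroup.eq, MonoidHom.mem_range] at hu
    obtain ⟨w, hw⟩ := hu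
    rw [powMonoidHom_apply] at hw
    have hs := sq_of_quot hBAS v e he _ _ (h1 b (h0 b hb)) _ _ _ _
      (h2 b (h0 b hb)) (h2 b' (h0 b' hb')) (h3 b (h0 b hb)) (h3 b' (h0 b' hb'))
      (h4 b (h0 b hb)) (h4 b' (h0 b' hb')) w hw.symm
    have hz : ϖ ^ (P b : ℕ) * ϖ ^ J b * ϖ ^ J b' ≠ 0 :=
      mul_ne_zero (mul_ne_zero (pow_ne_zero _ hϖ0) (zpow_ne_zero _ hϖ0)) (zpow_ne_zero _ hϖ0)
    have hs2 := (hBAS F v).2.1 _ _ hs ((hBAS F v).2.2.1 _ (inv_ne_zero hz))
    have : b * b' = b * ϖ ^ (P b : ℕ) * (ϖ ^ J b) ^ 2 * (b' * ϖ ^ (P b' : ℕ) * (ϖ ^ J b') ^ 2) *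
        (ϖ ^ (P b : ℕ) * ϖ ^ J b * ϖ ^ J b')⁻¹ ^ 2 := by
      rw [← hp]
      field_simp
    rw [this]
    exact hs2
  have hc : Nat.card (Fin 2 × ((𝓞 F ⧸ v.asIdeal ^ (2 * e + 1))ˣ ⧸
      (powMonoidHom 2 : (𝓞 F ⧸ v.asIdeal ^ (2 * e + 1))ˣ →* _).range)) ≤
        4 * Ideal.absNorm v.asIdeal ^ e := by
    rw [Nat.card_prod, card_quot_sq]
    have := ker_card v e
    simp only [Nat.card_eq_fintype_card, Fintype.card_fin] at this ⊢
    omega
  have hfin : Finite (Fin 2 × ((𝓞 F ⧸ v.asIdeal ^ (2 * e + 1))ˣ ⧸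
      (powMonoidHom 2 : (𝓞 F ⧸ v.asIdeal ^ (2 * e + 1))ˣ →* _).range)) := inferInstance
  have hF := Fintype.ofFinite (Fin 2 × ((𝓞 F ⧸ v.asIdeal ^ (2 * e + 1))ˣ ⧸
      (powMonoidHom 2 : (𝓞 F ⧸ v.asIdeal ^ (2 * e + 1))ˣ →* _).range))
  calc B.card = (B.image g).card := (Finset.card_image_of_injOn hinj).symm
    _ ≤ Nat.card (Fin 2 × ((𝓞 F ⧸ v.asIdeal ^ (2 * e + 1))ˣ ⧸
      (powMonoidHom 2 : (𝓞 F ⧸ v.asIdeal ^ (2 * e + 1))ˣ →* _).range)) := by
        rw [Nat.card_eq_fintype_card]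
        exact Finset.card_le_univ _
    _ ≤ _ := hc

end Loc

/-! ## All places -/

section Glob

variable {F : Type} [Field F] [NumberField F]

theorem finS (y : ℕ) : {v : HeightOneSpectrum (𝓞 F) | Sm y v}.Finite := by
  have h1 : {v : HeightOneSpectrum (𝓞 F) | Sm y v} ⊆
      ⋃ l ∈ Finset.Icc 1 y, {v : HeightOneSpectrum (𝓞 F) | v.asIdeal ∣ Ideal.span {(l : 𝓞 F)}} := by
    rintro v ⟨l, hl, hly, hlv⟩
    simp only [Set.mem_iUnion]
    refine ⟨l, Finset.mem_Icc.mpr ⟨hl.one_lt.le, hly⟩, ?_⟩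
    exact Ideal.dvd_span_singleton.mpr hlv
  refine Set.Finite.subset ?_ h1
  refine Set.Finite.biUnion (Finset.finite_toSet _) ?_
  intro l hl
  apply Ideal.finite_factors
  rw [Ne, Ideal.zero_eq_bot, Ideal.span_singleton_eq_bot]
  have : 1 ≤ l := (Finset.mem_Icc.mp hl).1
  exact_mod_cast (by omega : l ≠ 0)

/-- the order of `2` at `v` -/
theorem exists_ord (v : HeightOneSpectrum (𝓞 F)) :
    ∃ e : ℕ, v.valuation F 2 = WithZero.exp (-(e : ℤ)) := by
  have h2 : v.valuation F 2 ≠ 0 := (Valuation.ne_zero_iff _).mpr two_ne_zero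
  have h1 : v.valuation F 2 ≤ 1 := by
    calc v.valuation F 2 = v.valuation F (algebraMap (𝓞 F) F 2) := by
          rw [map_ofNat (algebraMap (𝓞 F) F) 2]
      _ = v.intValuation 2 := v.valuation_of_algebraMap 2
      _ ≤ 1 := v.intValuation_le_one 2
  obtain ⟨k, hk⟩ : ∃ k : ℤ, v.valuation F 2 = WithZero.exp k :=
    ⟨WithZero.log (v.valuation F 2), (WithZero.exp_log h2).symm⟩
  rw [hk, ← WithZero.exp_zero, WithZero.exp_le_exp] at h1
  refine ⟨(-k).toNat, ?_⟩
  rw [hk]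
  congr 1
  omega

noncomputable def eo (v : HeightOneSpectrum (𝓞 F)) : ℕ := (exists_ord v).choose

theorem eo_spec (v : HeightOneSpectrum (𝓞 F)) : v.valuation F 2 = WithZero.exp (-(eo v : ℤ)) :=
  (exists_ord v).choose_spec

theorem prod_norm (S : Finset (HeightOneSpectrum (𝓞 F))) :
    ∏ v ∈ S, Ideal.absNorm v.asIdeal ^ eo v ≤ 2 ^ Module.finrank ℚ F := by
  have h1 : ∏ v ∈ S, v.asIdeal ^ eo v ∣ Ideal.span {((2 : ℕ) : 𝓞 F)} := by
    apply Finset.prod_dvd_of_coprime
    · intro v _ w _ hvw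
      have hv : v.asIdeal.IsMaximal := v.isMaximal
      have hw : w.asIdeal.IsMaximal := w.isMaximal
      apply IsCoprime.pow
      rw [Ideal.isCoprime_iff_sup_eq]
      apply Ideal.IsMaximal.coprime_of_ne hv hw
      intro h
      exact hvw (HeightOneSpectrum.ext h)
    · intro v _
      rw [Ideal.dvd_span_singleton, ← v.intValuation_le_pow_iff_mem,
        ← v.valuation_of_algebraMap (K := F)]
      have := eo_spec v
      simp only [Nat.cast_ofNat, map_ofNat]
      exact this.le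
  have h2 := Ideal.absNorm_dvd_absNorm_of_le (Ideal.dvd_iff_le.mp h1)
  rw [Ideal.absNorm_span_natCast, RingOfIntegers.rank, map_prod] at h2
  simp only [map_pow] at h2
  exact Nat.le_of_dvd (by positivity) h2

theorem card_real : Finite (F →+* ℝ) ∧ Nat.card (F →+* ℝ) ≤ InfinitePlace.nrRealPlaces F := by
  classical
  let g : (F →+* ℝ) → {φ : F →+* ℂ // ComplexEmbedding.IsReal φ} := fun φ =>
    ⟨Complex.ofRealHom.comp φ, by
      rw [ComplexEmbedding.isReal_iff]
      ext x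
      simp [ComplexEmbedding.conjugate_coe_eq]⟩
  have hg : Function.Injective g := by
    intro φ ψ h
    ext x
    have h1 := congrArg (fun z => z.1 x) h
    simp only [g, RingHom.comp_apply, Complex.ofRealHom_eq_coe] at h1
    exact_mod_cast h1
  have hfin : Finite (F →+* ℝ) := Finite.of_injective g hg
  refine ⟨hfin, ?_⟩
  have := Nat.card_le_card_of_injective g hg
  rw [Nat.card_eq_fintype_card (α := {φ : F →+* ℂ // ComplexEmbedding.IsReal φ}),
    InfinitePlace.card_real_embeddings] at this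
  exact this

end Glob

/-- JOB LOC of project LQ -/
theorem loc (hBAS : Pool.Agent.Q283.LQ.S_BAS) : Pool.Agent.Q283.LQ.S_LOC := by
  classical
  intro F _ _ y _
  refine ⟨finS y, ?_⟩
  intro B h0 hB
  have hSfin := finS (F := F) y
  have hrfin := (card_real (F := F)).1
  have hS : Fintype {v : HeightOneSpectrum (𝓞 F) // Sm y v} := hSfin.fintype
  have hr : Fintype (F →+* ℝ) := Fintype.ofFinite _
  let α := {b : F // b ≠ 0}
  let sv : HeightOneSpectrum (𝓞 F) → Setoid α := fun v =>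
    { r := fun b b' => Lsq v (b.1 * b'.1)
      iseqv := by
        refine ⟨?_, ?_, ?_⟩
        · intro b
          have := (hBAS F v).2.2.1 b.1 b.2
          rwa [sq] at this
        · intro b b' h
          rwa [mul_comm]
        · intro b b' b'' h h'
          have h1 := (hBAS F v).2.1 _ _ ((hBAS F v).2.1 _ _ h h')
            ((hBAS F v).2.2.1 _ (inv_ne_zero b'.2))
          have h2 : b.1 * b''.1 = b.1 * b'.1 * (b'.1 * b''.1) * b'.1⁻¹ ^ 2 := by
            have := b'.2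
            field_simp
          rw [h2]
          exact h1 }
  let sr : (F →+* ℝ) → Setoid α := fun φ =>
    { r := fun b b' => 0 < φ (b.1 * b'.1)
      iseqv := by
        refine ⟨?_, ?_, ?_⟩
        · intro b
          rw [map_mul]
          exact mul_self_pos.mpr ((map_ne_zero φ).mpr b.2)
        · intro b b' h
          rwa [mul_comm]
        · intro b b' b'' h h'
          rw [map_mul] at h h' ⊢
          have h1 : φ b'.1 ≠ 0 := (map_ne_zero φ).mpr b'.2
          have h2 := mul_pos h h'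
          have h3 : 0 < φ b'.1 * φ b'.1 := mul_self_pos.mpr h1
          nlinarith [mul_pos h h', (pos_iff_pos_of_mul_pos (show 0 < (φ b.1 * φ b''.1) *
            (φ b'.1 * φ b'.1) by nlinarith)).mpr h3] }
  let s : {v : HeightOneSpectrum (𝓞 F) // Sm y v} ⊕ (F →+* ℝ) → Setoid α :=
    Sum.elim (fun v => sv v.1) sr
  let n : {v : HeightOneSpectrum (𝓞 F) // Sm y v} ⊕ (F →+* ℝ) → ℕ :=
    Sum.elim (fun v => 4 * Ideal.absNorm v.1.asIdeal ^ eo v.1) (fun _ => 2)
  have hn : ∀ i, ∀ B : Finset α, (∀ b ∈ B, ∀ b' ∈ B, b ≠ b' → ¬ (s i) b b') → B.card ≤ n i := by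
    rintro (v | φ) C hC
    · have h1 := loc_one hBAS v.1 (eo v.1) (eo_spec v.1) (C.map (Function.Embedding.subtype _)) (by
        intro b hb
        rw [Finset.mem_map] at hb
        obtain ⟨b', _, rfl⟩ := hb
        exact b'.2) (by
        intro b hb b' hb' hne
        rw [Finset.mem_map] at hb hb'
        obtain ⟨c, hc, rfl⟩ := hb
        obtain ⟨c', hc', rfl⟩ := hb'
        exact hC c hc c' hc' (fun h => hne (by rw [h])))
      rwa [Finset.card_map] at h1
    · let g : α → Bool := fun b => decide (0 < φ b.1)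
      have hinj : Set.InjOn g C := by
        intro b hb b' hb' hg
        by_contra hne
        apply hC b hb b' hb' hne
        change 0 < φ (b.1 * b'.1)
        rw [map_mul]
        have h1 : φ b.1 ≠ 0 := (map_ne_zero φ).mpr b.2
        have h2 : φ b'.1 ≠ 0 := (map_ne_zero φ).mpr b'.2
        simp only [g, decide_eq_decide] at hg
        by_cases h3 : 0 < φ b.1
        · exact mul_pos h3 (hg.mp h3)
        · have h4 : ¬ 0 < φ b'.1 := fun h => h3 (hg.mpr h)
          exact mul_pos_of_neg_of_neg (lt_of_le_of_ne (not_lt.mp h3) h1)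
            (lt_of_le_of_ne (not_lt.mp h4) h2)
      calc C.card = (C.image g).card := (Finset.card_image_of_injOn hinj).symm
        _ ≤ Fintype.card Bool := Finset.card_le_univ _
        _ = 2 := Fintype.card_bool
  let B' : Finset α := B.subtype (fun b => b ≠ 0)
  have hB' : B'.card = B.card := by
    rw [Finset.card_subtype]
    congr 1
    rw [Finset.filter_eq_self]
    exact h0
  have h2 := prod_bound s n hn B' (by
    intro b hb b' hb' hne hall
    rw [Finset.mem_subtype] at hb hb'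
    apply hB b.1 hb b'.1 hb' (fun h => hne (Subtype.ext h))
    refine ⟨mul_ne_zero b.2 b'.2, ?_, ?_⟩
    · intro v hv
      exact hall (Sum.inl ⟨v, hv⟩)
    · intro φ
      exact hall (Sum.inr φ))
  rw [hB'] at h2
  refine h2.trans ?_
  rw [Fintype.prod_sum_type]
  simp only [n, Sum.elim_inl, Sum.elim_inr, Finset.prod_mul_distrib, Finset.prod_const,
    Finset.card_univ]
  have h3 : ∏ v : {v : HeightOneSpectrum (𝓞 F) // Sm y v}, Ideal.absNorm v.1.asIdeal ^ eo v.1 ≤
      2 ^ Module.finrank ℚ F := by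
    have := prod_norm (F := F) (Finset.univ.map
      (Function.Embedding.subtype (fun v : HeightOneSpectrum (𝓞 F) => Sm y v)))
    rwa [Finset.prod_map] at this
  have h4 : Fintype.card {v : HeightOneSpectrum (𝓞 F) // Sm y v} = nS F y := by
    rw [nS, Nat.card_eq_fintype_card]
  have h5 : Fintype.card (F →+* ℝ) ≤ InfinitePlace.nrRealPlaces F := by
    rw [← Nat.card_eq_fintype_card]
    exact (card_real (F := F)).2
  rw [h4, pow_add, pow_add, pow_mul]
  exact Nat.mul_le_mul (Nat.mul_le_mul (by norm_num) h3) (Nat.pow_le_pow_right (by norm_num) h5)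

end Pool.Agent.Q96.LQ
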