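import Pool.Agent.Q283.LQ.Stm

/-!
# Job LQ-SU (helper96, for project LQ of helper283): units outside `S`
-/

set_option autoImplicit false

namespace Pool.Agent.Q96.LQ

open NumberField IsDedekindDomain Pool.Agent.Q283.LQ
open scoped nonZeroDivisors

section SU

variable {F : Type} [Field F] [NumberField F]

/-- every ideal class contains a nonzero ideal whose prime factors lie above the rational primes `≤ y` -/
def Good (F : Type) [Field F] [NumberField F] (y : ℕ) : Prop :=
  ∀ c : ClassGroup (𝓞 F), ∃ I : (Ideal (𝓞 F))⁰, ClassGroup.mk0 I = c ∧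
    ∀ v : HeightOneSpectrum (𝓞 F), (I : Ideal (𝓞 F)) ≤ v.asIdeal → Sm y v

omit [NumberField F] in
theorem exists_prime_mem (v : HeightOneSpectrum (𝓞 F)) (n : ℕ) :
    n ≠ 0 → ((n : ℕ) : 𝓞 F) ∈ v.asIdeal → ∃ l : ℕ, l.Prime ∧ l ≤ n ∧ (l : 𝓞 F) ∈ v.asIdeal := by
  induction n using Nat.strong_induction_on with
  | _ n ih =>
    intro hn hv
    have hp := v.isPrime
    by_cases h1 : n = 1
    · rw [h1, Nat.cast_one] at hv
      exact absurd ((Ideal.eq_top_iff_one _).mpr hv) hp.ne_top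
    have h2 := Nat.minFac_prime h1
    obtain ⟨m, hm⟩ := Nat.minFac_dvd n
    have hm0 : m ≠ 0 := by
      rintro rfl
      exact hn (by simpa using hm)
    have hmn : m < n := by
      conv_rhs => rw [hm]
      have := h2.two_le
      nlinarith [Nat.pos_of_ne_zero hm0]
    rw [hm, Nat.cast_mul] at hv
    rcases hp.mem_or_mem hv with h | h
    · exact ⟨n.minFac, h2, Nat.minFac_le (Nat.pos_of_ne_zero hn), h⟩
    · obtain ⟨l, hl, hlm, hlv⟩ := ih m hmn hm0 h
      exact ⟨l, hl, hlm.trans hmn.le, hlv⟩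

theorem sm_of_le (I : Ideal (𝓞 F)) (hI : I ≠ ⊥) (y : ℕ) (hy : Ideal.absNorm I ≤ y)
    (v : HeightOneSpectrum (𝓞 F)) (hv : I ≤ v.asIdeal) : Sm y v := by
  have h1 : ((Ideal.absNorm I : ℕ) : 𝓞 F) ∈ v.asIdeal := hv (Ideal.absNorm_mem I)
  have h0 : Ideal.absNorm I ≠ 0 := by
    rwa [Ne, Ideal.absNorm_eq_zero_iff]
  obtain ⟨l, hl, hln, hlv⟩ := exists_prime_mem v _ h0 h1
  exact ⟨l, hl, hln.trans hy, hlv⟩

theorem exists_good (F : Type) [Field F] [NumberField F] : ∃ y0 : ℕ, ∀ y, y0 ≤ y → Good F y := by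
  have h : ∀ c : ClassGroup (𝓞 F), ∃ I : (Ideal (𝓞 F))⁰, ClassGroup.mk0 I = c :=
    fun c => ClassGroup.mk0_surjective c
  choose I hI using h
  refine ⟨∑ c, Ideal.absNorm (I c : Ideal (𝓞 F)), fun y hy c => ⟨I c, hI c, ?_⟩⟩
  intro v hv
  apply sm_of_le _ _ y _ v hv
  · have := nonZeroDivisors.ne_zero (I c).2
    rwa [Ne, ← Ideal.zero_eq_bot]
  · exact (Finset.single_le_sum (f := fun c => Ideal.absNorm (I c : Ideal (𝓞 F)))
      (fun _ _ => Nat.zero_le _) (Finset.mem_univ c)).trans hy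

theorem exists_gen0 (y : ℕ) (hy : Good F y) (J : (Ideal (𝓞 F))⁰) :
    ∃ (I : (Ideal (𝓞 F))⁰) (p : 𝓞 F), (J : Ideal (𝓞 F)) * (I : Ideal (𝓞 F)) = Ideal.span {p} ∧
    ∀ v : HeightOneSpectrum (𝓞 F), (I : Ideal (𝓞 F)) ≤ v.asIdeal → Sm y v := by
  obtain ⟨I, hI, hS⟩ := hy ((ClassGroup.mk0 J)⁻¹)
  have h1 : ClassGroup.mk0 (J * I) = 1 := by
    rw [map_mul, hI, mul_inv_cancel]
  have h2 : ((J * I : (Ideal (𝓞 F))⁰) : Ideal (𝓞 F)).IsPrincipal :=
    (ClassGroup.mk0_eq_one_iff (J * I).2).mp h1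
  obtain ⟨p, hp⟩ := h2.principal
  exact ⟨I, p, hp, hS⟩

theorem exists_gen (y : ℕ) (hy : Good F y) (q : HeightOneSpectrum (𝓞 F)) (hq : ¬ Sm y q) :
    ∃ p : F, q.valuation F p = WithZero.exp (-1 : ℤ) ∧
    ∀ v : HeightOneSpectrum (𝓞 F), ¬ Sm y v → v ≠ q → v.valuation F p = 1 := by
  have hqne : q.asIdeal ≠ 0 := by
    rw [Ne, Ideal.zero_eq_bot]
    exact q.ne_bot
  have hq0 : q.asIdeal ∈ (Ideal (𝓞 F))⁰ := mem_nonZeroDivisors_of_ne_zero hqne
  obtain ⟨I, p, hp, hS⟩ := exists_gen0 y hy ⟨q.asIdeal, hq0⟩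
  change q.asIdeal * (I : Ideal (𝓞 F)) = Ideal.span {p} at hp
  have hp' : ∀ v : HeightOneSpectrum (𝓞 F), p ∈ v.asIdeal → v = q ∨ Sm y v := by
    intro v hv
    have h3 : q.asIdeal * (I : Ideal (𝓞 F)) ≤ v.asIdeal := by
      rw [hp, Ideal.span_singleton_le_iff_mem]
      exact hv
    rcases v.isPrime.mul_le.mp h3 with h4 | h4
    · left
      have := q.isMaximal.eq_of_le v.isPrime.ne_top h4
      exact HeightOneSpectrum.ext this.symm
    · exact Or.inr (hS v h4)
  refine ⟨algebraMap (𝓞 F) F p, ?_, ?_⟩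
  · have h3 : p ∈ q.asIdeal ^ 1 := by
      rw [pow_one]
      have : p ∈ q.asIdeal * (I : Ideal (𝓞 F)) := by
        rw [hp]
        exact Ideal.mem_span_singleton_self p
      exact (Ideal.mul_le_inf this).1
    have h4 : p ∉ q.asIdeal ^ 2 := by
      intro h
      have h5 : q.asIdeal * (I : Ideal (𝓞 F)) ≤ q.asIdeal ^ 2 := by
        rw [hp, Ideal.span_singleton_le_iff_mem]
        exact h
      rw [← Ideal.dvd_iff_le, sq] at h5
      have h6 := (mul_dvd_mul_iff_left hqne).mp h5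
      exact hq (hS q (Ideal.dvd_iff_le.mp h6))
    rw [← q.intValuation_le_pow_iff_mem] at h3 h4
    rw [q.valuation_of_algebraMap]
    have h7 : q.intValuation p ≠ 0 := by
      intro h0
      rw [h0] at h4
      exact h4 (by simp)
    obtain ⟨k, hk⟩ : ∃ k : ℤ, q.intValuation p = WithZero.exp k :=
      ⟨WithZero.log (q.intValuation p), (WithZero.exp_log h7).symm⟩
    rw [hk, WithZero.exp_le_exp] at h3 h4
    rw [hk]
    congr 1
    push_cast at h3 h4
    omega
  · intro v hv hvq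
    rw [v.valuation_eq_one_iff_notMem]
    intro h
    rcases hp' v h with h' | h'
    · exact hvq h'
    · exact hv h'

theorem fin_ne_one (a : F) (ha : a ≠ 0) :
    {v : HeightOneSpectrum (𝓞 F) | v.valuation F a ≠ 1}.Finite := by
  have h1 := HeightOneSpectrum.Support.finite (𝓞 F) a
  have h2 := HeightOneSpectrum.Support.finite (𝓞 F) a⁻¹
  refine (h1.union h2).subset ?_
  intro v hv
  rcases lt_or_gt_of_ne hv with h | h
  · right
    change 1 < v.valuation F a⁻¹
    have h0 : v.valuation F a ≠ 0 := (Valuation.ne_zero_iff _).mpr ha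
    rw [map_inv₀]
    exact (one_lt_inv₀ (zero_lt_iff.mpr h0)).mpr h
  · left
    exact h

theorem exists_adj (y : ℕ) (hy : Good F y) (a : F) (ha : a ≠ 0)
    (hev : ∀ v : HeightOneSpectrum (𝓞 F), ¬ Sm y v → ¬ Od v a) :
    ∃ x : F, x ≠ 0 ∧ ∀ v : HeightOneSpectrum (𝓞 F), ¬ Sm y v → v.valuation F (a * x ^ 2) = 1 := by
  classical
  have hgen := exists_gen y hy
  choose! p hp1 hp2 using hgen
  have hn : ∀ v : HeightOneSpectrum (𝓞 F), ¬ Sm y v → ∃ n : ℤ, v.valuation F a = WithZero.exp (2 * n) := by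
    intro v hv
    have h0 : v.valuation F a ≠ 0 := (Valuation.ne_zero_iff _).mpr ha
    obtain ⟨k, hk⟩ : ∃ k : ℤ, v.valuation F a = WithZero.exp k :=
      ⟨WithZero.log (v.valuation F a), (WithZero.exp_log h0).symm⟩
    rcases Int.even_or_odd' k with ⟨j, hj | hj⟩
    · exact ⟨j, by rw [hk, hj]⟩
    · exact absurd ⟨j, by rw [hk, hj]⟩ (hev v hv)
  choose! n hn using hn
  have hp0 : ∀ q : HeightOneSpectrum (𝓞 F), ¬ Sm y q → p q ≠ 0 := by
    intro q hq h0
    have := hp1 q hq
    rw [h0, map_zero] at this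
    exact WithZero.exp_ne_zero this.symm
  have hT := (fin_ne_one a ha)
  let T := hT.toFinset.filter (fun v => ¬ Sm y v)
  have hTm : ∀ v, v ∈ T ↔ v.valuation F a ≠ 1 ∧ ¬ Sm y v := by
    intro v
    simp [T]
  refine ⟨∏ v ∈ T, p v ^ (n v), ?_, ?_⟩
  · apply Finset.prod_ne_zero_iff.mpr
    intro v hv
    exact zpow_ne_zero _ (hp0 v ((hTm v).mp hv).2)
  · intro w hw
    rw [map_mul, map_pow, map_prod]
    have h1 : ∏ v ∈ T, w.valuation F (p v ^ (n v)) = WithZero.exp (- (n w)) := by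
      by_cases hwT : w ∈ T
      · rw [Finset.prod_eq_single_of_mem w hwT, map_zpow₀, hp1 w hw, ← WithZero.exp_zsmul]
        · congr 1
          simp
        · intro v hv hvw
          rw [map_zpow₀, hp2 v ((hTm v).mp hv).2 w hw (Ne.symm hvw), one_zpow]
      · have h2 : w.valuation F a = 1 := by
          by_contra h
          exact hwT ((hTm w).mpr ⟨h, hw⟩)
        rw [hn w hw, ← WithZero.exp_zero, WithZero.exp_inj] at h2
        rw [Finset.prod_eq_one]
        · rw [← WithZero.exp_zero]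
          congr 1
          omega
        · intro v hv
          have hvw : w ≠ v := by
            rintro rfl
            exact hwT hv
          rw [map_zpow₀, hp2 v ((hTm v).mp hv).2 w hw hvw, one_zpow]
    rw [h1, hn w hw, ← WithZero.exp_nsmul, ← WithZero.exp_add, ← WithZero.exp_zero]
    congr 1
    simp only [nsmul_eq_mul]
    push_cast
    ring

/-! ## The group of the units outside `S` -/

variable (F) in
/-- the units outside `S` -/
def GS (y : ℕ) : Subgroup Fˣ where
  carrier := {x | ∀ v : HeightOneSpectrum (𝓞 F), ¬ Sm y v → v.valuation F (x : F) = 1}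
  mul_mem' := by
    intro a b ha hb v hv
    rw [Units.val_mul, map_mul, ha v hv, hb v hv, one_mul]
  one_mem' := by
    intro v _
    rw [Units.val_one, map_one]
  inv_mem' := by
    intro a ha v hv
    rw [Units.val_inv_eq_inv_val, map_inv₀, ha v hv, inv_one]

theorem mem_GS (y : ℕ) (x : Fˣ) :
    x ∈ GS F y ↔ ∀ v : HeightOneSpectrum (𝓞 F), ¬ Sm y v → v.valuation F (x : F) = 1 := Iff.rfl

variable (F) in
/-- the valuations at `S` -/
noncomputable def gS (y : ℕ) : Additive (GS F y) →ₗ[ℤ] ({v : HeightOneSpectrum (𝓞 F) // Sm y v} → ℤ) :=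
  AddMonoidHom.toIntLinearMap
    { toFun := fun x v => WithZero.log (v.1.valuation F ((x.toMul : Fˣ) : F))
      map_zero' := by
        funext v
        simp
      map_add' := by
        intro a b
        funext v
        simp only [toMul_add, Subgroup.coe_mul, Units.val_mul, map_mul, Pi.add_apply]
        exact WithZero.log_mul ((Valuation.ne_zero_iff _).mpr (Units.ne_zero _))
          ((Valuation.ne_zero_iff _).mpr (Units.ne_zero _)) }

theorem gS_apply (y : ℕ) (x : Additive (GS F y)) (v : {v : HeightOneSpectrum (𝓞 F) // Sm y v}) :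
    gS F y x v = WithZero.log (v.1.valuation F ((x.toMul : Fˣ) : F)) := rfl

theorem unit_val (v : HeightOneSpectrum (𝓞 F)) (u : (𝓞 F)ˣ) :
    v.valuation F (algebraMap (𝓞 F) F (u : 𝓞 F)) = 1 := by
  rw [v.valuation_eq_one_iff_notMem]
  intro h
  exact v.isPrime.ne_top (Ideal.eq_top_of_isUnit_mem _ h u.isUnit)

variable (F) in
/-- the inclusion of the units of `𝓞 F` -/
noncomputable def fS (y : ℕ) : Additive (𝓞 F)ˣ →ₗ[ℤ] Additive (GS F y) :=
  AddMonoidHom.toIntLinearMap (MonoidHom.toAdditive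
    ((Units.map (algebraMap (𝓞 F) F).toMonoidHom).codRestrict (GS F y) (fun u v _ => unit_val v u)))

theorem fS_apply (y : ℕ) (u : Additive (𝓞 F)ˣ) :
    (((fS F y u).toMul : Fˣ) : F) = algebraMap (𝓞 F) F ((u.toMul : (𝓞 F)ˣ) : 𝓞 F) := rfl

theorem fS_inj (y : ℕ) : Function.Injective (fS F y) := by
  intro a b h
  have h1 := congrArg (fun z : Additive (GS F y) => ((z.toMul : Fˣ) : F)) h
  simp only [fS_apply] at h1
  have h2 := FaithfulSMul.algebraMap_injective (𝓞 F) F h1
  exact Additive.toMul.injective (Units.ext h2)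

theorem range_eq_ker (y : ℕ) : LinearMap.range (fS F y) = LinearMap.ker (gS F y) := by
  ext x
  rw [LinearMap.mem_range, LinearMap.mem_ker]
  constructor
  · rintro ⟨u, rfl⟩
    funext v
    rw [gS_apply, fS_apply, unit_val, WithZero.log_one]
    rfl
  · intro hx
    have h1 : ∀ v : HeightOneSpectrum (𝓞 F), v.valuation F ((x.toMul : Fˣ) : F) = 1 := by
      intro v
      by_cases hv : Sm y v
      · have h2 := congrFun hx ⟨v, hv⟩
        rw [gS_apply, Pi.zero_apply] at h2
        have h3 : v.valuation F ((x.toMul : Fˣ) : F) ≠ 0 := (Valuation.ne_zero_iff _).mpr (Units.ne_zero _)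
        rw [← WithZero.exp_log h3, h2, WithZero.exp_zero]
      · exact x.toMul.2 v hv
    obtain ⟨a, ha⟩ := HeightOneSpectrum.mem_integers_of_valuation_le_one F ((x.toMul : Fˣ) : F)
      (fun v => (h1 v).le)
    obtain ⟨b, hb⟩ := HeightOneSpectrum.mem_integers_of_valuation_le_one F (((x.toMul : Fˣ) : F)⁻¹)
      (fun v => by rw [map_inv₀, h1 v, inv_one])
    have hab : a * b = 1 := by
      apply FaithfulSMul.algebraMap_injective (𝓞 F) F
      rw [map_mul, ha, hb, map_one]
      exact mul_inv_cancel₀ (Units.ne_zero _)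
    refine ⟨Additive.ofMul (Units.mkOfMulEqOne a b hab), ?_⟩
    apply Additive.toMul.injective
    apply Subtype.ext
    apply Units.ext
    rw [fS_apply]
    exact ha

theorem finS' (y : ℕ) : Finite {v : HeightOneSpectrum (𝓞 F) // Sm y v} := by
  have h1 : {v : HeightOneSpectrum (𝓞 F) | Sm y v} ⊆
      ⋃ l ∈ Finset.Icc 1 y, {v : HeightOneSpectrum (𝓞 F) | v.asIdeal ∣ Ideal.span {(l : 𝓞 F)}} := by
    rintro v ⟨l, hl, hly, hlv⟩
    simp only [Set.mem_iUnion]
    refine ⟨l, Finset.mem_Icc.mpr ⟨hl.one_lt.le, hly⟩, ?_⟩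
    exact Ideal.dvd_span_singleton.mpr hlv
  refine Set.finite_coe_iff.mpr (Set.Finite.subset ?_ h1)
  refine Set.Finite.biUnion (Finset.finite_toSet _) ?_
  intro l hl
  apply Ideal.finite_factors
  rw [Ne, Ideal.zero_eq_bot, Ideal.span_singleton_eq_bot]
  have : 1 ≤ l := (Finset.mem_Icc.mp hl).1
  exact_mod_cast (by omega : l ≠ 0)

theorem noeth (y : ℕ) : IsNoetherian ℤ (Additive (GS F y)) := by
  have := finS' (F := F) y
  have h1 : IsNoetherian ℤ (Additive (𝓞 F)ˣ) := inferInstance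
  have h2 : IsNoetherian ℤ ({v : HeightOneSpectrum (𝓞 F) // Sm y v} → ℤ) := inferInstance
  exact isNoetherian_of_range_eq_ker (fS F y) (gS F y) (range_eq_ker y)

theorem exists_xv (v : HeightOneSpectrum (𝓞 F)) :
    ∃ (x : F) (h : ℕ), h ≠ 0 ∧ x ≠ 0 ∧ v.valuation F x = WithZero.exp (-(h : ℤ)) ∧
      ∀ w : HeightOneSpectrum (𝓞 F), w ≠ v → w.valuation F x = 1 := by
  have hvne : v.asIdeal ≠ 0 := by
    rw [Ne, Ideal.zero_eq_bot]
    exact v.ne_bot
  have hv0 : v.asIdeal ∈ (Ideal (𝓞 F))⁰ := mem_nonZeroDivisors_of_ne_zero hvne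
  set J : (Ideal (𝓞 F))⁰ := ⟨v.asIdeal, hv0⟩ with hJ
  set h := Fintype.card (ClassGroup (𝓞 F)) with hh
  have h0 : h ≠ 0 := Fintype.card_ne_zero
  have h1 : ClassGroup.mk0 (J ^ h) = 1 := by
    rw [map_pow, hh, pow_card_eq_one]
  have h2 : ((J ^ h : (Ideal (𝓞 F))⁰) : Ideal (𝓞 F)).IsPrincipal :=
    (ClassGroup.mk0_eq_one_iff (J ^ h).2).mp h1
  obtain ⟨p, hp⟩ := h2.principal
  have hp2 : v.asIdeal ^ h = Ideal.span {p} := hp
  have hpne : p ≠ 0 := by
    rintro rfl
    rw [Ideal.span_singleton_zero, ← Ideal.zero_eq_bot] at hp2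
    exact hvne (pow_eq_zero_iff h0 |>.mp hp2)
  refine ⟨algebraMap (𝓞 F) F p, h, h0, ?_, ?_, ?_⟩
  · rw [Ne, FaithfulSMul.algebraMap_eq_zero_iff]
    exact hpne
  · have h3 : p ∈ v.asIdeal ^ h := by
      rw [hp2]
      exact Ideal.mem_span_singleton_self p
    have h4 : p ∉ v.asIdeal ^ (h + 1) := by
      intro h'
      have h5 : v.asIdeal ^ h ≤ v.asIdeal ^ (h + 1) := by
        rw [hp2, Ideal.span_singleton_le_iff_mem]
        exact h'
      exact absurd h5 (not_le_of_gt (Ideal.pow_succ_lt_pow v.ne_bot h))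
    rw [← v.intValuation_le_pow_iff_mem] at h3 h4
    rw [v.valuation_of_algebraMap]
    have h7 : v.intValuation p ≠ 0 := v.intValuation_ne_zero p hpne
    obtain ⟨k, hk⟩ : ∃ k : ℤ, v.intValuation p = WithZero.exp k :=
      ⟨WithZero.log (v.intValuation p), (WithZero.exp_log h7).symm⟩
    rw [hk, WithZero.exp_le_exp] at h3 h4
    rw [hk]
    congr 1
    push_cast at h3 h4
    omega
  · intro w hw
    rw [w.valuation_eq_one_iff_notMem]
    intro hpw
    have h5 : v.asIdeal ^ h ≤ w.asIdeal := by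
      rw [hp2, Ideal.span_singleton_le_iff_mem]
      exact hpw
    have h6 := w.isPrime.le_of_pow_le h5
    have := v.isMaximal.eq_of_le w.isPrime.ne_top h6
    exact hw (HeightOneSpectrum.ext this.symm)

theorem rank_range (y : ℕ) : nS F y ≤ Module.finrank ℤ (LinearMap.range (gS F y)) := by
  classical
  have hfin := finS' (F := F) y
  have := Fintype.ofFinite {v : HeightOneSpectrum (𝓞 F) // Sm y v}
  have key : ∀ v : {v : HeightOneSpectrum (𝓞 F) // Sm y v}, ∃ (x : Additive (GS F y)) (h : ℤ),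
      h ≠ 0 ∧ gS F y x = Pi.single v h := by
    intro v
    obtain ⟨x, h, h0, hx0, hxv, hxw⟩ := exists_xv v.1
    have hx : Units.mk0 x hx0 ∈ GS F y := by
      intro w hw
      rw [Units.val_mk0]
      apply hxw
      rintro rfl
      exact hw v.2
    refine ⟨Additive.ofMul ⟨Units.mk0 x hx0, hx⟩, -(h : ℤ), by omega, ?_⟩
    funext w
    rw [gS_apply]
    change WithZero.log (w.1.valuation F x) = _
    by_cases hwv : w = v
    · subst hwv
      rw [Pi.single_eq_same, hxv, WithZero.log_exp]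
    · rw [Pi.single_eq_of_ne hwv, hxw w.1 (fun h => hwv (Subtype.ext h)), WithZero.log_one]
  choose x h h0 hx using key
  have hli : LinearIndependent ℤ (fun v : {v : HeightOneSpectrum (𝓞 F) // Sm y v} =>
      (⟨gS F y (x v), LinearMap.mem_range_self _ _⟩ : LinearMap.range (gS F y))) := by
    rw [Fintype.linearIndependent_iff]
    intro c hc w
    have h1 := congrArg (fun z : LinearMap.range (gS F y) => (z : _ → ℤ) w) hc
    simp only [AddSubmonoidClass.coe_finsetSum, SetLike.val_smul, Finset.sum_apply, Pi.smul_apply,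
      ZeroMemClass.coe_zero, Pi.zero_apply, smul_eq_mul, hx] at h1
    rw [Finset.sum_eq_single_of_mem w (Finset.mem_univ w)] at h1
    · rw [Pi.single_eq_same] at h1
      exact (mul_eq_zero.mp h1).resolve_right (h0 w)
    · intro v _ hvw
      rw [Pi.single_eq_of_ne (Ne.symm hvw), mul_zero]
  have hfinm : Module.Finite ℤ (LinearMap.range (gS F y)) := inferInstance
  have h2 := hli.fintype_card_le_finrank
  rwa [nS, Nat.card_eq_fintype_card]

theorem rank_GS (y : ℕ) : InfinitePlace.nrRealPlaces F + InfinitePlace.nrComplexPlaces F + nS F y ≤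
    Module.finrank ℤ (Additive (GS F y)) + 1 := by
  have hno := noeth (F := F) y
  have hfin : Module.Finite ℤ (Additive (GS F y)) := inferInstance
  have h1 := Submodule.finrank_quotient_add_finrank (LinearMap.ker (gS F y))
  rw [(gS F y).quotKerEquivRange.finrank_eq, ← range_eq_ker,
    LinearMap.finrank_range_of_inj (f := fS F y) (fS_inj y), Units.finrank_eq, Units.rank,
    InfinitePlace.card_eq_nrRealPlaces_add_nrComplexPlaces] at h1
  have h2 := rank_range (F := F) y
  omega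

theorem mon_eq (y : ℕ) {f : ℕ} (U : Fin f → Additive (GS F y)) (c : Fin f → ZMod 2) :
    mon (fun l => (((U l).toMul : Fˣ) : F)) c = (((∑ l, (c l).val • U l).toMul : Fˣ) : F) := by
  simp [mon, toMul_sum, toMul_nsmul]

theorem torsion_GS (y : ℕ) (x : Additive (GS F y)) (hx : x ∈ Submodule.torsion ℤ (Additive (GS F y))) :
    ∃ u : (𝓞 F)ˣ, u ∈ Units.torsion F ∧ fS F y (Additive.ofMul u) = x := by
  rw [Submodule.mem_torsion_iff] at hx
  obtain ⟨⟨a, ha⟩, hax⟩ := hx
  have ha0 : a ≠ 0 := nonZeroDivisors.ne_zero ha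
  change a • x = 0 at hax
  have h1 : gS F y x = 0 := by
    have h2 := congrArg (gS F y) hax
    rw [map_smul, map_zero] at h2
    funext v
    have h3 := congrFun h2 v
    rw [Pi.smul_apply, smul_eq_mul, Pi.zero_apply] at h3
    exact (mul_eq_zero.mp h3).resolve_left ha0
  have h2 : x ∈ LinearMap.range (fS F y) := by
    rw [range_eq_ker, LinearMap.mem_ker]
    exact h1
  obtain ⟨u, rfl⟩ := h2
  refine ⟨u.toMul, ?_, rfl⟩
  rw [← map_smul, ← map_zero (fS F y)] at hax
  have h3 := fS_inj y hax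
  have h4 : (u.toMul : (𝓞 F)ˣ) ^ a = 1 := h3
  rw [Units.torsion, CommGroup.mem_torsion]
  exact isOfFinOrder_iff_zpow_eq_one.mpr ⟨a, ha0, h4⟩

theorem exists_zeta (F : Type) [Field F] [NumberField F] :
    ∃ ζ : (𝓞 F)ˣ, (∀ u ∈ Units.torsion F, ∃ k : ℤ, u = ζ ^ k) ∧ ζ ∈ Units.torsion F ∧
      ∀ k : ℤ, ζ ^ k = 1 → (2 : ℤ) ∣ k := by
  obtain ⟨g, hg⟩ := IsCyclic.exists_generator (α := Units.torsion F)
  refine ⟨g.1, ?_, g.2, ?_⟩
  · intro u hu
    obtain ⟨k, hk⟩ := Subgroup.mem_zpowers_iff.mp (hg ⟨u, hu⟩)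
    refine ⟨k, ?_⟩
    exact (congrArg Subtype.val hk).symm
  · intro k hk
    have h1 : g ^ k = 1 := Subtype.ext (by
      rw [Subgroup.coe_zpow]
      exact hk)
    rw [← orderOf_dvd_iff_zpow_eq_one, orderOf_eq_card_of_forall_mem_zpowers hg] at h1
    have h2 : Even (Nat.card (Units.torsion F)) := Units.even_torsionOrder F
    have h3 : (2 : ℤ) ∣ (Nat.card (Units.torsion F) : ℤ) := by
      exact_mod_cast h2.two_dvd
    exact h3.trans h1

theorem even_val (m : ℤ) : ∃ j : ℤ, m + (((m : ZMod 2)).val : ℤ) = 2 * j := by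
  have h1 : (((m + (((m : ZMod 2)).val : ℤ) : ℤ)) : ZMod 2) = 0 := by
    push_cast
    rw [ZMod.natCast_zmod_val]
    exact CharTwo.add_self_eq_zero _
  obtain ⟨j, hj⟩ := (ZMod.intCast_zmod_eq_zero_iff_dvd _ 2).mp h1
  exact ⟨j, by exact_mod_cast hj⟩

theorem val_zero (c : ZMod 2) (j : ℤ) (h : (c.val : ℤ) = 2 * j) : c = 0 := by
  have h1 := ZMod.val_lt c
  have h2 : c.val = 0 := by omega
  exact (ZMod.val_eq_zero c).mp h2

theorem exists_basis (y : ℕ) : ∃ (f : ℕ) (U : Fin f → Additive (GS F y)),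
    InfinitePlace.nrRealPlaces F + InfinitePlace.nrComplexPlaces F + nS F y ≤ f ∧
    (∀ (c : Fin f → ZMod 2) (x : Additive (GS F y)), ∑ l, (c l).val • U l = (2 : ℤ) • x → c = 0) ∧
    (∀ a : Additive (GS F y), ∃ (c : Fin f → ZMod 2) (x : Additive (GS F y)),
      a + ∑ l, (c l).val • U l = (2 : ℤ) • x) := by
  have hno := noeth (F := F) y
  have hfin : Module.Finite ℤ (Additive (GS F y)) := inferInstance
  set T : Submodule ℤ (Additive (GS F y)) := Submodule.torsion ℤ (Additive (GS F y)) with hT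
  have hmk : ∀ x : Additive (GS F y), T.mkQ x = 0 ↔ x ∈ T := fun x => by
    rw [Submodule.mkQ_apply, Submodule.Quotient.mk_eq_zero]
  have htf : Module.IsTorsionFree ℤ (Additive (GS F y) ⧸ T) := inferInstance
  have hfree : Module.Free ℤ (Additive (GS F y) ⧸ T) := inferInstance
  let n := Module.finrank ℤ (Additive (GS F y) ⧸ T)
  have hn : n = Module.finrank ℤ (Additive (GS F y)) := finrank_quotient_eq_of_le_torsion le_rfl
  let b : Module.Basis (Fin n) ℤ (Additive (GS F y) ⧸ T) := Module.finBasis ℤ (Additive (GS F y) ⧸ T)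
  obtain ⟨ζ, hζ1, hζ2, hζ3⟩ := exists_zeta F
  let z : Additive (GS F y) := fS F y (Additive.ofMul ζ)
  have hzT : z ∈ T := by
    rw [hT, Submodule.mem_torsion_iff]
    rw [Units.torsion, CommGroup.mem_torsion, isOfFinOrder_iff_pow_eq_one] at hζ2
    obtain ⟨m, hm, hm1⟩ := hζ2
    refine ⟨⟨(m : ℤ), mem_nonZeroDivisors_of_ne_zero (by omega)⟩, ?_⟩
    change (m : ℤ) • fS F y (Additive.ofMul ζ) = 0
    have h1 : (m : ℤ) • Additive.ofMul ζ = 0 := by
      apply Additive.toMul.injective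
      change ζ ^ (m : ℤ) = 1
      rw [zpow_natCast, hm1]
    rw [← map_smul, h1, map_zero]
  have hTz : ∀ x ∈ T, ∃ k : ℤ, x = k • z := by
    intro x hx
    obtain ⟨u, hu, hux⟩ := torsion_GS y x hx
    obtain ⟨k, hk⟩ := hζ1 u hu
    refine ⟨k, ?_⟩
    rw [← hux, hk]
    change _ = k • fS F y (Additive.ofMul ζ)
    rw [← map_smul]
    rfl
  have hz2 : ∀ k : ℤ, k • z = 0 → (2 : ℤ) ∣ k := by
    intro k hk
    change k • fS F y (Additive.ofMul ζ) = 0 at hk
    rw [← map_smul, ← map_zero (fS F y)] at hk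
    exact hζ3 k (fS_inj y hk)
  choose g hg using fun i => Submodule.mkQ_surjective T (b i)
  refine ⟨n + 1, Fin.cons z g, ?_, ?_, ?_⟩
  · rw [hn]
    exact rank_GS y
  · intro c x hx
    rw [Fin.sum_univ_succ] at hx
    simp only [Fin.cons_zero, Fin.cons_succ] at hx
    have h1 := congrArg T.mkQ hx
    rw [map_add, map_nsmul, (hmk z).mpr hzT, smul_zero, zero_add,
      map_sum, map_smul] at h1
    simp only [map_nsmul, hg] at h1
    have h2 : ∀ i, ((c i.succ).val : ℤ) = 2 * b.repr (T.mkQ x) i := by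
      intro i
      have h3' := congrArg (b.coord i) h1
      simp only [map_sum, map_nsmul, map_zsmul, Module.Basis.coord_apply, Module.Basis.repr_self,
        nsmul_eq_mul, zsmul_eq_mul, Int.cast_ofNat] at h3'
      rw [Finset.sum_eq_single_of_mem i (Finset.mem_univ i)] at h3'
      · rwa [Finsupp.single_eq_same, mul_one] at h3'
      · intro j _ hji
        rw [Finsupp.single_eq_of_ne (Ne.symm hji), mul_zero]
    have h4 : ∀ i : Fin n, c i.succ = 0 := fun i => val_zero _ _ (h2 i)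
    have h5 : T.mkQ x = 0 := by
      apply b.repr.injective
      ext i
      have := h2 i
      rw [h4 i, ZMod.val_zero] at this
      rw [map_zero, Finsupp.zero_apply]
      omega
    rw [hmk] at h5
    obtain ⟨k, hk⟩ := hTz x h5
    simp only [h4, ZMod.val_zero, zero_smul, Finset.sum_const_zero, add_zero] at hx
    rw [hk, smul_smul, ← natCast_zsmul, ← sub_eq_zero, ← sub_smul] at hx
    obtain ⟨j, hj⟩ := hz2 _ hx
    have h6 : c 0 = 0 := val_zero (c 0) (j + k) (by linarith)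
    funext l
    refine Fin.cases ?_ ?_ l
    · exact h6
    · exact h4
  · intro a
    have h1 : a - ∑ i, b.repr (T.mkQ a) i • g i ∈ T := by
      rw [← hmk, map_sub, map_sum]
      simp only [map_smul, hg]
      rw [b.sum_repr, sub_self]
    obtain ⟨k, hk⟩ := hTz _ h1
    obtain ⟨k', hk'⟩ := even_val k
    choose m' hm' using fun i => even_val (b.repr (T.mkQ a) i)
    refine ⟨Fin.cons (k : ZMod 2) (fun i => ((b.repr (T.mkQ a) i : ℤ) : ZMod 2)),
      k' • z + ∑ i, m' i • g i, ?_⟩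
    rw [Fin.sum_univ_succ]
    simp only [Fin.cons_zero, Fin.cons_succ]
    have e1 : ((k : ZMod 2)).val • z = (2 * k' - k : ℤ) • z := by
      rw [← natCast_zsmul]
      congr 1
      linarith
    have e2 : ∀ i, (((b.repr (T.mkQ a) i : ℤ) : ZMod 2)).val • g i =
        (2 * m' i - b.repr (T.mkQ a) i : ℤ) • g i := by
      intro i
      rw [← natCast_zsmul]
      congr 1
      linarith [hm' i]
    rw [e1, Finset.sum_congr rfl (fun i _ => e2 i)]
    simp only [sub_smul, Finset.sum_sub_distrib, mul_smul]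
    have h2 : a = k • z + ∑ i, b.repr (T.mkQ a) i • g i := by
      rw [← hk]
      abel
    generalize ∑ i, b.repr (T.mkQ a) i • g i = W at *
    have h3 : ∑ i, (2 : ℤ) • m' i • g i = (2 : ℤ) • ∑ i, m' i • g i :=
      Finset.sum_zsmul _ _ _
    rw [h2, h3, zsmul_add]
    abel

end SU

/-- JOB SU of project LQ -/
theorem su : Pool.Agent.Q283.LQ.S_SU := by
  intro F _ _
  obtain ⟨y0, hy0⟩ := exists_good F
  refine ⟨y0, fun y hy => ?_⟩
  have hG := hy0 y hy
  refine ⟨exists_gen y hG, exists_adj y hG, ?_⟩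
  obtain ⟨f, U, hf, hU1, hU2⟩ := exists_basis (F := F) y
  refine ⟨f, fun l => (((U l).toMul : Fˣ) : F), hf, ?_, ?_, ?_⟩
  · intro l
    exact ⟨Units.ne_zero _, (U l).toMul.2⟩
  · intro c hc
    rw [mon_eq] at hc
    obtain ⟨x, hx⟩ := hc
    have hx0 : x ≠ 0 := by
      rintro rfl
      rw [mul_zero] at hx
      exact Units.ne_zero _ hx
    have hxG : Units.mk0 x hx0 ∈ GS F y := by
      intro v hv
      rw [Units.val_mk0]
      have h1 := (∑ l, (c l).val • U l).toMul.2 v hv
      rw [hx, map_mul, ← sq] at h1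
      have h2 : v.valuation F x ^ 2 = 1 ^ 2 := by rw [h1, one_pow]
      exact (pow_left_inj₀ (by simp) (by simp) two_ne_zero).mp h2
    apply hU1 c (Additive.ofMul ⟨Units.mk0 x hx0, hxG⟩)
    apply Additive.toMul.injective
    apply Subtype.ext
    apply Units.ext
    rw [hx, toMul_zsmul, Subgroup.coe_zpow, Units.val_zpow_eq_zpow_val, zpow_two]
    rfl
  · intro a ha hev
    obtain ⟨x, hx0, hx⟩ := exists_adj y hG a ha hev
    have ha2 : a * x ^ 2 ≠ 0 := mul_ne_zero ha (pow_ne_zero _ hx0)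
    obtain ⟨c, w, hw⟩ := hU2 (Additive.ofMul ⟨Units.mk0 (a * x ^ 2) ha2, fun v hv => hx v hv⟩)
    refine ⟨c, ?_⟩
    rw [mon_eq]
    have h1 := congrArg (fun z : Additive (GS F y) => ((z.toMul : Fˣ) : F)) hw
    simp only [toMul_add, toMul_zsmul, Subgroup.coe_mul, Units.val_mul, toMul_ofMul, Units.val_mk0,
      zpow_two] at h1
    refine ⟨((w.toMul : Fˣ) : F) / x, ?_⟩
    field_simp
    linear_combination h1

end Pool.Agent.Q96.LQ
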